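import Mathlib

open Matrix

namespace Pool.Agent.Results.MP_020c1a_co.GLUniquenessFails

/-- `F` is a `p`-singular family in the group `G`: the order of `g h⁻¹` is divisible by `p` for
all distinct `g, h` in `F`. -/
def IsPSingular {G : Type} [Group G] (p : ℕ) (F : Finset G) : Prop :=
  ∀ g ∈ F, ∀ h ∈ F, g ≠ h → p ∣ orderOf (g * h⁻¹)

/-- `F` is a maximum `p`-singular family of `G`. -/
def IsMaximum {G : Type} [Group G] (p : ℕ) (F : Finset G) : Prop :=
  IsPSingular p F ∧ ∀ F' : Finset G, IsPSingular p F' → F'.card ≤ F.card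

/-- `F` is a double-translate `g P h` of a Sylow `p`-subgroup `P` of `G`. -/
def IsDoubleTranslate {G : Type} [Group G] (p : ℕ) (F : Finset G) : Prop :=
  ∃ (P : Sylow p G) (g h : G), (F : Set G) = {x | ∃ s ∈ P, x = g * s * h}

lemma card_translate {G : Type} [Group G] [Finite G] {p : ℕ} [Fact p.Prime] {F : Finset G}
    (P₀ : Sylow p G) (h : IsDoubleTranslate p F) : F.card = Nat.card P₀ := by
  obtain ⟨P, σ, π, hF⟩ := h
  rw [P₀.card_eq_multiplicity, ← P.card_eq_multiplicity, ← Nat.card_eq_finsetCard]
  have h1 : {x | ∃ g ∈ P, x = σ * g * π} = Set.range (fun g : P => σ * (g : G) * π) := by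
    ext x
    constructor
    · rintro ⟨g, hg, rfl⟩
      exact ⟨⟨g, hg⟩, rfl⟩
    · rintro ⟨g, rfl⟩
      exact ⟨g, g.2, rfl⟩
  have h2 : Nat.card F = Nat.card (F : Set G) := rfl
  rw [h2, hF, h1]
  apply Nat.card_range_of_injective
  intro a b hab
  have := mul_right_cancel hab
  exact Subtype.ext (mul_left_cancel this)

/-- Elements of a double-translate containing `1` have `p`-power order. -/
lemma pow_card_of_translate {G : Type} [Group G] [Finite G] {p : ℕ} [Fact p.Prime] {F : Finset G}
    (P₀ : Sylow p G) (h : IsDoubleTranslate p F) (h1 : 1 ∈ F) {x : G} (hx : x ∈ F) :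
    x ^ Nat.card P₀ = 1 := by
  obtain ⟨P, σ, π, hF⟩ := h
  rw [← Finset.mem_coe, hF] at h1 hx
  obtain ⟨g0, hg0, e0⟩ := h1
  obtain ⟨g, hg, rfl⟩ := hx
  have e1 : π = g0⁻¹ * σ⁻¹ := by
    have : π = g0⁻¹ * σ⁻¹ * (σ * g0 * π) := by group
    rw [← e0, mul_one] at this
    exact this
  have e2 : σ * g * π = σ * (g * g0⁻¹) * σ⁻¹ := by rw [e1]; group
  have hmem : g * g0⁻¹ ∈ P := P.mul_mem hg (P.inv_mem hg0)
  rw [e2, conj_pow, P₀.card_eq_multiplicity, ← P.card_eq_multiplicity]
  have h3 : (g * g0⁻¹) ^ Nat.card P = 1 := by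
    have h4 : (⟨g * g0⁻¹, hmem⟩ : P) ^ Nat.card P = 1 := pow_card_eq_one'
    exact congrArg Subtype.val h4
  rw [h3]
  group

/-- If the finite group `G` has order divisible by `p` and a nontrivial central element of order
prime to `p`, then some maximum `p`-singular family is not a double-translate of a Sylow
`p`-subgroup. -/
lemma general {G : Type} [Group G] [Finite G] (p : ℕ) [Fact p.Prime] (hp : p ∣ Nat.card G)
    (z : G) (hz : ∀ x, z * x = x * z) (hz1 : z ≠ 1) (hzp : Nat.Coprime (orderOf z) p) :
    ∃ F : Finset G, IsMaximum p F ∧ ¬ IsDoubleTranslate p F := by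
  classical
  have : Fintype G := Fintype.ofFinite G
  obtain ⟨P⟩ : Nonempty (Sylow p G) := inferInstance
  -- a nontrivial element of `P`
  obtain ⟨e, he⟩ : ∃ e, Nat.card P = p ^ e := ⟨_, P.card_eq_multiplicity⟩
  have hPdvd : p ∣ Nat.card P := P.dvd_card_of_dvd_card hp
  have hP1 : 1 < Nat.card P := by
    have h0 : 0 < Nat.card P := Nat.card_pos
    exact (Fact.out : p.Prime).one_lt.trans_le (Nat.le_of_dvd h0 hPdvd)
  obtain ⟨u, hu⟩ : ∃ u : P, u ≠ 1 := by
    by_contra hcon
    push Not at hcon
    have : Nat.card P ≤ 1 := by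
      rw [Finite.card_le_one_iff_subsingleton]
      exact ⟨fun a b => by rw [hcon a, hcon b]⟩
    omega
  -- powers of `z`
  have hzpow : ∀ k : ℕ, z ^ (p ^ k) = 1 → False := by
    intro k hk
    have h1 := orderOf_dvd_of_pow_eq_one hk
    have h2 : orderOf z = 1 := Nat.Coprime.eq_one_of_dvd (Nat.Coprime.pow_right k hzp) h1
    exact hz1 (orderOf_eq_one_iff.mp h2)
  have hzP : ∀ y ∈ P, z * y ∉ P := by
    intro y hy hzy
    have hz' : z ∈ P := by
      have h9 := P.mul_mem hzy (P.inv_mem hy)
      have h10 : z * y * y⁻¹ = z := by group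
      rw [h10] at h9
      exact h9
    have h4 : (⟨z, hz'⟩ : P) ^ Nat.card P = 1 := pow_card_eq_one'
    have h5 : z ^ Nat.card P = 1 := congrArg Subtype.val h4
    rw [he] at h5
    exact hzpow e h5
  -- orders
  have hord1 : ∀ y ∈ P, y ≠ 1 → p ∣ orderOf y := by
    intro y hy hy1
    obtain ⟨k, hk⟩ := (IsPGroup.iff_orderOf.mp P.isPGroup') ⟨y, hy⟩
    have h2 : orderOf y = p ^ k := by
      rw [← hk]
      exact Subgroup.orderOf_coe (⟨y, hy⟩ : (P : Subgroup G))
    rw [h2]
    rcases k with _ | k
    · rw [pow_zero, orderOf_eq_one_iff] at h2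
      exact absurd h2 hy1
    · exact dvd_pow_self p (Nat.succ_ne_zero k)
  have hord2 : ∀ y ∈ P, y ≠ 1 → ∀ w : G, (∀ x, w * x = x * w) → Nat.Coprime (orderOf w) p →
      p ∣ orderOf (w * y) := by
    intro y hy hy1 w hw hwp
    have h1 : y ^ (orderOf (w * y) * orderOf w) = 1 := by
      have hc : Commute w y := hw y
      have h2 : (w * y) ^ (orderOf (w * y) * orderOf w) = 1 := by
        rw [pow_mul, pow_orderOf_eq_one, one_pow]
      rw [hc.mul_pow] at h2
      have h3 : w ^ (orderOf (w * y) * orderOf w) = 1 := by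
        rw [mul_comm, pow_mul, pow_orderOf_eq_one, one_pow]
      rwa [h3, one_mul] at h2
    have h2 : p ∣ orderOf (w * y) * orderOf w :=
      (hord1 y hy hy1).trans (orderOf_dvd_of_pow_eq_one h1)
    exact (Nat.Coprime.dvd_of_dvd_mul_right hwp.symm h2)
  let Q : Finset G := (Finset.univ.filter (fun g => g ∈ P)).erase (u : G)
  have hQ : ∀ g, g ∈ Q ↔ g ≠ u ∧ g ∈ P := by intro g; simp [Q]
  let F : Finset G := insert (z * u) Q
  have hnot : z * (u : G) ∉ Q := fun h => hzP u u.2 ((hQ _).mp h).2
  have hF : IsPSingular p F := by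
    intro g hg h hh hne
    rcases Finset.mem_insert.mp hg with rfl | hg <;> rcases Finset.mem_insert.mp hh with rfl | hh
    · exact absurd rfl hne
    · have h1 := (hQ h).mp hh
      rw [mul_assoc]
      refine hord2 _ (P.mul_mem u.2 (P.inv_mem h1.2)) ?_ z hz hzp
      intro h2
      exact h1.1 (mul_inv_eq_one.mp h2).symm
    · have h1 := (hQ g).mp hg
      have h3 : g * (z * (u : G))⁻¹ = z⁻¹ * (g * (u : G)⁻¹) := by
        have h4 : z⁻¹ * g = g * z⁻¹ := by
          have := hz g
          rw [eq_mul_inv_iff_mul_eq, mul_assoc, ← this]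
          group
        rw [_root_.mul_inv_rev, ← mul_assoc z⁻¹, h4, mul_assoc g z⁻¹]
        have h5 : z⁻¹ * (u : G)⁻¹ = (u : G)⁻¹ * z⁻¹ := by
          rw [← _root_.mul_inv_rev, ← _root_.mul_inv_rev, hz]
        rw [h5]
      rw [h3]
      refine hord2 _ (P.mul_mem h1.2 (P.inv_mem u.2)) ?_ z⁻¹ ?_ ?_
      · intro h2
        exact h1.1 (mul_inv_eq_one.mp h2)
      · intro x
        rw [inv_mul_eq_iff_eq_mul, ← mul_assoc, hz x]
        group
      · rwa [orderOf_inv]
    · have h1 := (hQ g).mp hg
      have h2 := (hQ h).mp hh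
      exact hord1 _ (P.mul_mem h1.2 (P.inv_mem h2.2)) (fun e => hne (mul_inv_eq_one.mp e))
  have hcard : F.card = Nat.card P := by
    have h1 : (Finset.univ.filter (fun g => g ∈ P)).card = Nat.card P := by
      rw [← Nat.card_eq_finsetCard]
      apply Nat.card_congr
      exact Equiv.subtypeEquivRight (fun g => by
        rw [Finset.mem_filter]
        exact ⟨fun h => h.2, fun h => ⟨Finset.mem_univ _, h⟩⟩)
    have hmem : (u : G) ∈ Finset.univ.filter (fun g => g ∈ P) := by simp
    rw [Finset.card_insert_of_notMem hnot, Finset.card_erase_of_mem hmem, h1]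
    omega
  have hdt : ¬ IsDoubleTranslate p F := by
    intro h
    have h1F : (1 : G) ∈ F := by
      apply Finset.mem_insert_of_mem
      rw [hQ]
      refine ⟨?_, P.one_mem⟩
      intro h1
      exact hu (Subtype.ext h1.symm)
    have h2 := pow_card_of_translate P h h1F (Finset.mem_insert_self _ _)
    have hc : Commute z (u : G) := hz u
    have h4 : u ^ Nat.card P = 1 := pow_card_eq_one'
    have h5 : (u : G) ^ Nat.card P = 1 := congrArg Subtype.val h4
    rw [hc.mul_pow, h5, mul_one, he] at h2
    exact hzpow e h2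
  obtain ⟨M, hM, hmax⟩ := Finset.exists_max_image
    (Finset.univ.filter (fun F : Finset G => IsPSingular p F)) Finset.card
    ⟨F, by simpa using hF⟩
  simp only [Finset.mem_filter, Finset.mem_univ, true_and] at hM hmax
  by_cases hMd : IsDoubleTranslate p M
  · refine ⟨F, ⟨hF, fun F' hF' => ?_⟩, hdt⟩
    exact (hmax F' hF').trans ((card_translate P hMd).le.trans hcard.ge)
  · exact ⟨M, ⟨hM, fun F' hF' => hmax F' hF'⟩, hMd⟩

/-- For every prime `p`, every finite field `K` of characteristic `p` with at least three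
elements and every `n ≥ 2`, the group `GL_n(K)` has a maximum `p`-singular family which is not a
double-translate of a Sylow `p`-subgroup. -/
theorem result : ∀ (p : ℕ) [Fact p.Prime] (K : Type) [Field K] [Finite K] [CharP K p] (n : ℕ),
    3 ≤ Nat.card K → 2 ≤ n →
      ∃ F : Finset (GL (Fin n) K), IsMaximum p F ∧ ¬ IsDoubleTranslate p F := by
  intro p _ K _ _ _ n hK hn
  classical
  have : Fintype K := Fintype.ofFinite K
  have hfin : Finite (GL (Fin n) K) := by
    have : Finite (Matrix (Fin n) (Fin n) K) := inferInstance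
    exact inferInstance
  -- an element of order `p`
  let i : Fin n := ⟨0, by omega⟩
  let j : Fin n := ⟨1, by omega⟩
  have hij : i ≠ j := by simp [i, j]
  let u : GL (Fin n) K := ⟨transvection i j 1, transvection i j (-1),
    by rw [transvection_mul_transvection_same i j hij]; simp,
    by rw [transvection_mul_transvection_same i j hij]; simp⟩
  have hupow : ∀ k : ℕ, ((u ^ k : GL (Fin n) K) : Matrix (Fin n) (Fin n) K) =
      transvection i j (k : K) := by
    intro k
    induction k with
    | zero => simp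
    | succ k ih =>
      rw [pow_succ, Units.val_mul, ih]
      change transvection i j (k : K) * transvection i j 1 = _
      rw [transvection_mul_transvection_same i j hij]
      push_cast
      rfl
  have hup : u ^ p = 1 := by
    apply Units.ext
    rw [hupow, CharP.cast_eq_zero]
    simp
  have hu1 : u ≠ 1 := by
    intro h
    have h1 : (u : Matrix (Fin n) (Fin n) K) i j = (1 : Matrix (Fin n) (Fin n) K) i j := by
      rw [h]; rfl
    change transvection i j 1 i j = _ at h1
    simp [transvection, hij] at h1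
  have hpG : p ∣ Nat.card (GL (Fin n) K) := by
    rw [← orderOf_eq_prime hup hu1]
    exact orderOf_dvd_natCard u
  -- a nontrivial scalar
  obtain ⟨c, hc⟩ : ∃ c : K, c ∉ ({0, 1} : Finset K) := by
    by_contra hcon
    push Not at hcon
    have h1 : (Finset.univ : Finset K) ⊆ {0, 1} := fun x _ => hcon x
    have h2 := Finset.card_le_card h1
    rw [Finset.card_univ, ← Nat.card_eq_fintype_card] at h2
    have h3 := Finset.card_le_two (a := (0 : K)) (b := 1)
    omega
  simp only [Finset.mem_insert, Finset.mem_singleton, not_or] at hc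
  let z : GL (Fin n) K := Units.map (algebraMap K (Matrix (Fin n) (Fin n) K)).toMonoidHom
    (Units.mk0 c hc.1)
  have hzval : (z : Matrix (Fin n) (Fin n) K) = algebraMap K (Matrix (Fin n) (Fin n) K) c := rfl
  refine general p hpG z ?_ ?_ ?_
  · intro x
    apply Units.ext
    rw [Units.val_mul, Units.val_mul, hzval]
    exact Algebra.commutes c _
  · intro h
    have h1 : algebraMap K (Matrix (Fin n) (Fin n) K) c = 1 := by
      rw [← hzval, h]; rfl
    have h2 : (algebraMap K (Matrix (Fin n) (Fin n) K) c) i i = (1 : Matrix (Fin n) (Fin n) K) i i := by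
      rw [h1]
    rw [Matrix.algebraMap_matrix_apply] at h2
    simp at h2
    exact hc.2 h2
  · have h1 : z ^ (Fintype.card K - 1) = 1 := by
      rw [← map_pow]
      have : (Units.mk0 c hc.1) ^ (Fintype.card K - 1) = 1 := by
        apply Units.ext
        rw [Units.val_pow_eq_pow_val, Units.val_mk0, FiniteField.pow_card_sub_one_eq_one c hc.1]
        rfl
      rw [this, map_one]
    have h2 := orderOf_dvd_of_pow_eq_one h1
    refine Nat.Coprime.coprime_dvd_left h2 ?_
    have h3 : p ∣ Fintype.card K := by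
      obtain ⟨a, _, ha⟩ := FiniteField.card K p
      rw [ha]
      exact dvd_pow_self p (PNat.ne_zero a)
    obtain ⟨m, hm⟩ := h3
    have hpos : 0 < Fintype.card K := Fintype.card_pos
    rw [Nat.coprime_comm, Nat.Prime.coprime_iff_not_dvd Fact.out]
    intro h4
    have h5 : p ∣ 1 := by
      have h6 : Fintype.card K - (Fintype.card K - 1) = 1 := by omega
      rw [← h6]
      exact Nat.dvd_sub ⟨m, hm⟩ h4
    exact (Fact.out : p.Prime).one_lt.ne' (Nat.dvd_one.mp h5)

end Pool.Agent.Results.MP_020c1a_co.GLUniquenessFails
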